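import Pool.Agent.R931.TM.Main

/-!
# The `p`-adic Tate conjecture fails for totally degenerate abelian varieties, over every `p`-adic
# field and in every dimension at least two

Let `K` be a finite extension of `ℚ_p` with an algebraic closure `K̄` and Galois group `G_K`. By the
theory of Tate, Mumford, Raynaud and Gerritzen a principally polarised abelian variety over `K` of
dimension `g` with split totally multiplicative reduction is the same as a quotient
`A = 𝔾_m ^ g / Λ` by the lattice `Λ` generated by the columns of a symmetric matrix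
`(q i j)` of elements of `K^×` such that the real matrix `(-log |q i j|)` is positive definite
(`PeriodMatrix`); all these quotients are abelian varieties with totally multiplicative reduction.
The `G_K`-module of its geometric points is `A(K̄) = (K̄^×) ^ g / Λ` (`PeriodMatrix.Points`), and its
endomorphisms over `K` (or over `K̄`) are given by the endomorphisms of the torus `𝔾_m ^ g`, that is, by
the integral matrices, which map `Λ` to `Λ` (`PeriodMatrix.End`).

`T_p(A)` is the module of the sequences `x 0 = 0, x 1, x 2, …` in `A(K̄)` with `p x (n + 1) = x n`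
(`TateModule`), `V_p(A) = ℚ_p ⊗ T_p(A)` (`RationalTateModule`), and `End_{G_K}(V_p(A))` consists of the
`ℚ_p`-linear maps `φ` with the property `PeriodMatrix.IsGaloisEnd`. The image of the natural map
`ℚ_p ⊗ End(A) → End_{G_K}(V_p(A))` is the subspace spanned by the image of `End(A)`
(`PeriodMatrix.endV`).

**Theorem.** For every prime number `p`, every finite extension `K` of `ℚ_p` and every `g ≥ 2` there is
such an abelian variety `A` of dimension `g` over `K` with `End(A) = ℤ` for which
`End_{G_K}(V_p(A))` contains `g` elements which are linearly independent over `ℚ_p`. In particular the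
natural map is not surjective.

The reason: the extension `0 → ℚ_p(1) ^ g → V_p(A) → ℚ_p ^ g → 0` is given by the images of the `q i j`
in the `p`-adic completion of `K^×` (tensored with `ℚ_p`). If all `q i j` are in `ℚ_p^×`, and so given
by the matrices `ord (q)` and `log (q)` over `ℚ_p`, the algebra `End_{G_K}(V_p(A))` contains the
centralizer of the one matrix `log (q) ord (q)⁻¹`, so that its dimension is at least `g`. On the other
hand `End(A) = ℤ` if the `q i j` are sufficiently general. Here `q = p ^ I (1 + p) ^ S`, where `I` is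
the unit matrix and `S` is a Jacobi matrix with one irrational `p`-adic entry.
-/

set_option autoImplicit false
set_option linter.unusedSectionVars false

namespace Pool.Agent.Results.MP_b74fdd_ag.EveryFieldEveryDimension

open Pool.Agent.R931.TM
open scoped TensorProduct

/-- The multiplicative group of the algebraic closure of `K`, written additively. -/
abbrev Mult (K : Type) [Field K] : Type := Additive (AlgebraicClosure K)ˣ

/-- The inclusion of `K^×` in the multiplicative group of the algebraic closure. -/
noncomputable def toMult {K : Type} [Field K] (x : Kˣ) : Mult K :=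
  Additive.ofMul (Units.map (algebraMap K (AlgebraicClosure K)).toMonoidHom x)

/-- The action of the Galois group on the multiplicative group of the algebraic closure. -/
noncomputable def galMult {K : Type} [Field K] (σ : Gal(AlgebraicClosure K/K)) :
    Mult K →+ Mult K :=
  MonoidHom.toAdditive (Units.map ((σ : AlgebraicClosure K ≃ₐ[K] AlgebraicClosure K) :
    AlgebraicClosure K →* AlgebraicClosure K))

/-- The matrix of multiplicative periods of a principally polarised abelian variety of dimension `g`
over `K` with split totally multiplicative reduction: symmetric, with positive definite valuations. -/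
structure PeriodMatrix (K : Type) [NormedField K] (g : ℕ) where
  /-- the periods -/
  q : Matrix (Fin g) (Fin g) Kˣ
  symm : q.transpose = q
  posDef : (Matrix.of fun i j => -Real.log ‖((q i j : Kˣ) : K)‖).PosDef

theorem galMult_toMult {K : Type} [Field K] (σ : Gal(AlgebraicClosure K/K)) (x : Kˣ) :
    galMult σ (toMult x) = toMult x := by
  apply congrArg Additive.ofMul
  exact Units.ext (σ.commutes x)

namespace PeriodMatrix

variable {K : Type} [NormedField K] {g : ℕ} (A : PeriodMatrix K g)

/-- the periods in the multiplicative group of the algebraic closure -/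
noncomputable def Q (i j : Fin g) : Mult K := toMult (A.q i j)

/-- The geometric points `A(K̄) = (K̄^×) ^ g / Λ` of the abelian variety; `Λ` is generated by the
columns of the period matrix. -/
def Points : Type := TorusQuotient A.Q

/-- the group of geometric points -/
noncomputable instance instPoints : AddCommGroup A.Points := instACG A.Q

/-- The homomorphism of `(K̄^×) ^ g` maps the lattice `Λ` to itself. -/
def Preserves (f : (Fin g → Mult K) →+ (Fin g → Mult K)) : Prop :=
  ∀ y ∈ lattice A.Q, f y ∈ lattice A.Q

theorem galois_preserves (σ : Gal(AlgebraicClosure K/K)) :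
    A.Preserves ((galMult σ).compLeft (Fin g)) :=
  compLeft_mem A.Q (galMult σ) (fun _ _ => galMult_toMult σ _)

/-- The action of the Galois group on the geometric points. -/
noncomputable def galois (σ : Gal(AlgebraicClosure K/K)) : A.Points →+ A.Points :=
  descend A.Q ((galMult σ).compLeft (Fin g)) (A.galois_preserves σ)

/-- The endomorphisms of the abelian variety: the endomorphisms of the torus `𝔾_m ^ g` (integral
matrices) that map the lattice of periods to itself. -/
def End : Type := {M : Matrix (Fin g) (Fin g) ℤ // A.Preserves (torusEnd (Mult K) M)}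

/-- The action of an endomorphism on the geometric points. -/
noncomputable def endPoints (M : A.End) : A.Points →+ A.Points :=
  descend A.Q (torusEnd (Mult K) M.1) M.2

/-- The algebra of all `ℚ_p`-linear endomorphisms of `V_p(A)`. -/
def LinV (p : ℕ) [Fact p.Prime] : Type := Module.End ℚ_[p] (RationalTateModule p A.Points)

/-- the ring of linear endomorphisms -/
noncomputable instance instRing (p : ℕ) [Fact p.Prime] : Ring (A.LinV p) := Module.End.instRing

/-- the algebra of linear endomorphisms -/
noncomputable instance instAlgebra (p : ℕ) [Fact p.Prime] : Algebra ℚ_[p] (A.LinV p) :=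
  Module.End.instAlgebra ℚ_[p] ℚ_[p] (RationalTateModule p A.Points)

/-- The action of the Galois group on `V_p(A)`. -/
noncomputable def galoisV (p : ℕ) [Fact p.Prime] (σ : Gal(AlgebraicClosure K/K)) : A.LinV p :=
  RationalTateModule.map (A.galois σ)

/-- The action of the endomorphisms of the abelian variety on `V_p(A)`. -/
noncomputable def endV (p : ℕ) [Fact p.Prime] (M : A.End) : A.LinV p :=
  RationalTateModule.map (A.endPoints M)

/-- The linear map `φ` belongs to `End_{G_K}(V_p(A))`. -/
def IsGaloisEnd (p : ℕ) [Fact p.Prime] (φ : A.LinV p) : Prop :=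
  ∀ σ, φ * A.galoisV p σ = A.galoisV p σ * φ

end PeriodMatrix

section construction

variable (p : ℕ) [Fact p.Prime] (K : Type) [NormedField K] [NormedAlgebra ℚ_[p] K]

/-- the units of `ℤ_p` in `K` -/
noncomputable def unitsMap : ℤ_[p]ˣ →* Kˣ :=
  (Units.map (algebraMap ℚ_[p] K).toMonoidHom).comp (Units.map PadicInt.Coe.ringHom.toMonoidHom)

/-- `s ↦ (1 + p) ^ s` with values in the units -/
noncomputable def chiK : Multiplicative ℤ_[p] →* Kˣ :=
  (unitsMap p K).comp (MonoidHom.toHomUnits (chi p).toMonoidHom)

/-- `p` as an element of `K^×` -/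
noncomputable def primeK : Kˣ :=
  Units.map (algebraMap ℚ_[p] K).toMonoidHom
    (Units.mk0 (p : ℚ_[p]) (Nat.cast_ne_zero.2 (Fact.out : p.Prime).ne_zero))

theorem toMult_mul (x y : Kˣ) : toMult (x * y) = toMult x + toMult y := by
  unfold toMult
  rw [map_mul, ofMul_mul]

theorem toMult_one : toMult (1 : Kˣ) = 0 := by
  unfold toMult
  rw [map_one, ofMul_one]

theorem toMult_zpow (x : Kˣ) (k : ℤ) : toMult (x ^ k) = k • toMult x := by
  unfold toMult
  rw [map_zpow, ofMul_zpow]

theorem toMult_injective {x : Kˣ} (h : toMult x = 0) : x = 1 := by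
  have h1 : Units.map (algebraMap K (AlgebraicClosure K)).toMonoidHom x = 1 := h
  exact Units.ext ((algebraMap K (AlgebraicClosure K)).injective (by
    have := congrArg Units.val h1
    simpa using this))

/-- the homomorphism `κ` -/
noncomputable def kappa : ℤ_[p] →+ Mult K :=
  AddMonoidHom.mk' (fun s => toMult (chiK p K (Multiplicative.ofAdd s))) (by
    intro a b
    rw [ofAdd_add, map_mul, toMult_mul])

theorem kappa_apply (s : ℤ_[p]) : kappa p K s = toMult (chiK p K (Multiplicative.ofAdd s)) := rfl

theorem norm_primeK : ‖((primeK p K : Kˣ) : K)‖ = (p : ℝ)⁻¹ := by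
  show ‖algebraMap ℚ_[p] K (p : ℚ_[p])‖ = _
  rw [norm_algebraMap', Padic.norm_p]

theorem norm_chiK (s : ℤ_[p]) : ‖((chiK p K (Multiplicative.ofAdd s) : Kˣ) : K)‖ = 1 := by
  show ‖algebraMap ℚ_[p] K ((((MonoidHom.toHomUnits (chi p).toMonoidHom
    (Multiplicative.ofAdd s)) : ℤ_[p]ˣ) : ℤ_[p]) : ℚ_[p])‖ = _
  rw [norm_algebraMap', ← PadicInt.norm_def, PadicInt.norm_units]

theorem indep : Indep (toMult (primeK p K)) (kappa p K) := by
  intro k s h
  have hp : p.Prime := Fact.out
  rw [kappa_apply, ← toMult_zpow, ← toMult_mul] at h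
  have h1 := toMult_injective K h
  have h2 : ‖((primeK p K ^ k * chiK p K (Multiplicative.ofAdd s) : Kˣ) : K)‖ = 1 := by
    rw [h1, Units.val_one, norm_one]
  rw [Units.val_mul, norm_mul, norm_chiK, mul_one, Units.val_zpow_eq_zpow_val, norm_zpow,
    norm_primeK] at h2
  have h3 : k = 0 := by
    have h4 : (1 : ℝ) < p := by exact_mod_cast hp.one_lt
    rw [inv_zpow, inv_eq_one] at h2
    by_contra hk
    exact (zpow_right_injective₀ (by linarith) h4.ne').ne hk (h2.trans (zpow_zero _).symm)
  refine ⟨h3, ?_⟩
  rw [h3, zpow_zero, one_mul] at h1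
  have h4 : algebraMap ℚ_[p] K ((chi p s : ℤ_[p]) : ℚ_[p]) = 1 := congrArg Units.val h1
  have h5 : ((chi p s : ℤ_[p]) : ℚ_[p]) = 1 :=
    (algebraMap ℚ_[p] K).injective (by rw [h4, map_one])
  exact chi_injective p (Subtype.ext (by rw [h5]; rfl))

/-- the period matrix `p ^ I (1 + p) ^ S` -/
noncomputable def example' {g : ℕ} (S : Matrix (Fin g) (Fin g) ℤ_[p])
    (hS : ∀ i j, S i j = S j i) : PeriodMatrix K g where
  q := Matrix.of fun i j => (if i = j then primeK p K else 1) *
    chiK p K (Multiplicative.ofAdd (S i j))
  symm := by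
    refine Matrix.ext fun i j => ?_
    rw [Matrix.transpose_apply, Matrix.of_apply, Matrix.of_apply, hS j i]
    simp only [eq_comm]
  posDef := by
    have hp : p.Prime := Fact.out
    have h1 : (Matrix.of fun i j => -Real.log ‖(((Matrix.of fun i j =>
        (if i = j then primeK p K else 1) * chiK p K (Multiplicative.ofAdd (S i j)) :
          Matrix (Fin g) (Fin g) Kˣ) i j : Kˣ) : K)‖ : Matrix (Fin g) (Fin g) ℝ) =
        Matrix.diagonal fun _ => Real.log p := by
      ext i j
      rw [Matrix.of_apply, Matrix.of_apply, Units.val_mul, norm_mul, norm_chiK, mul_one]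
      by_cases h : i = j
      · subst h
        rw [if_pos rfl, norm_primeK, Real.log_inv, neg_neg, Matrix.diagonal_apply_eq]
      · rw [if_neg h, Units.val_one, norm_one, Real.log_one, neg_zero,
          Matrix.diagonal_apply_ne _ h]
    rw [h1]
    exact Matrix.PosDef.diagonal fun _ => Real.log_pos (by exact_mod_cast hp.one_lt)

theorem example_Q {g : ℕ} (S : Matrix (Fin g) (Fin g) ℤ_[p]) (hS : ∀ i j, S i j = S j i) :
    (example' p K S hS).Q = per (toMult (primeK p K)) (kappa p K) S := by
  ext1 i
  ext1 j
  show toMult ((if i = j then primeK p K else 1) * chiK p K (Multiplicative.ofAdd (S i j))) = _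
  unfold per
  rw [toMult_mul, kappa_apply]
  by_cases h : i = j
  · rw [if_pos h, if_pos h, one_smul]
  · rw [if_neg h, if_neg h, zero_smul, toMult_one]

/-- endomorphisms, for period matrices of the form of the example -/
theorem end_scalar {g : ℕ} {α : ℤ_[p]} (hα : ∀ a b : ℤ, (a : ℤ_[p]) * α + b = 0 → a = 0)
    (A : PeriodMatrix K g) (hQ : A.Q = per (toMult (primeK p K)) (kappa p K) (jac α))
    (z : Fin g) (hz : (z : ℕ) = 0) (M : A.End) : ∃ n : ℤ, M.1 = n • 1 := by
  have h1 : ∀ y ∈ lattice A.Q, torusEnd (Mult K) M.1 y ∈ lattice A.Q := M.2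
  rw [hQ] at h1
  have h2 := commute_of_stable (indep p K) (jac α) M.1 h1
  exact ⟨M.1 z z, scalar_of_irrational hα (fun b hb => by exact_mod_cast hb) z hz M.1 h2⟩

theorem galMult_kappa (σ : Gal(AlgebraicClosure K/K)) (s : ℤ_[p]) :
    galMult σ (kappa p K s) = kappa p K s := by
  rw [kappa_apply]
  exact galMult_toMult σ _

/-- Galois endomorphisms, for period matrices of the form of the example -/
theorem exists_galoisEnd {g : ℕ} (A : PeriodMatrix K g) (α : ℤ_[p])
    (hQ : A.Q = per (toMult (primeK p K)) (kappa p K) (jac α)) (z : Fin g) (hz : (z : ℕ) = 0) :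
    ∃ e : Fin g → A.LinV p, (∀ k, A.IsGaloisEnd p (e k)) ∧ LinearIndependent ℚ_[p] e := by
  have : CharZero K := charZero_of_injective_algebraMap (algebraMap ℚ_[p] K).injective
  have : CharZero (AlgebraicClosure K) :=
    charZero_of_injective_algebraMap (algebraMap K (AlgebraicClosure K)).injective
  obtain ⟨t, ht⟩ := exists_tate (p := p) (AlgebraicClosure K)
  obtain ⟨e, he1, he2⟩ := exists_endos (indep p K) α A.Q hQ z hz t ht
  exact ⟨e, fun k σ => he1 k (galMult σ) (fun i j => galMult_toMult σ _) (galMult_kappa p K σ), he2⟩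

theorem map_scalar {M : Type} [AddCommGroup M] (f : M →+ M) (n : ℤ) (hf : ∀ x, f x = n • x) :
    RationalTateModule.map (p := p) f = (n : ℚ_[p]) • LinearMap.id := by
  have h1 : TateModule.map (p := p) f = (n : ℤ_[p]) • LinearMap.id := by
    apply LinearMap.ext
    intro x
    have h2 : (n : ℤ_[p]) • x = n • x := Int.cast_smul_eq_zsmul ℤ_[p] n x
    rw [LinearMap.smul_apply, LinearMap.id_apply, h2]
    refine TateModule.ext' fun k => ?_
    rw [TateModule.map_seq, hf]
    let φ : TateModule p M →+ M := AddMonoidHom.mk' (fun x => x.seq k) (fun _ _ => rfl)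
    exact (map_zsmul φ n x).symm
  have h2 : (TateModule.map (p := p) f).baseChange ℚ_[p] =
      (n : ℚ_[p]) • (LinearMap.id : ℚ_[p] ⊗[ℤ_[p]] TateModule p M →ₗ[ℚ_[p]] _) := by
    rw [h1, LinearMap.baseChange_smul, LinearMap.baseChange_id]
    apply LinearMap.ext
    intro x
    rw [LinearMap.smul_apply, LinearMap.smul_apply, LinearMap.id_apply]
    have h3 : (algebraMap ℤ_[p] ℚ_[p] (n : ℤ_[p])) • x = (n : ℤ_[p]) • x :=
      algebraMap_smul ℚ_[p] (n : ℤ_[p]) x
    rw [← h3, map_intCast]
  exact h2

end construction

/-- **The `p`-adic Tate conjecture for totally degenerate abelian varieties fails** over every finite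
extension `K` of `ℚ_p` and in every dimension `g ≥ 2`: there is a principally polarised abelian
variety `A` of dimension `g` over `K` with split totally multiplicative reduction and `End(A) = ℤ`,
such that `End_{G_K}(V_p(A))` contains `g` linearly independent elements, and elements outside of the
`ℚ_p`-span of the image of `End(A)`, that is, outside of the image of the natural map
`ℚ_p ⊗ End(A) → End_{G_K}(V_p(A))`. -/
theorem result (p : ℕ) [Fact p.Prime] (K : Type) [NormedField K] [NormedAlgebra ℚ_[p] K]
    [FiniteDimensional ℚ_[p] K] (g : ℕ) (hg : 2 ≤ g) :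
    ∃ A : PeriodMatrix K g,
      (∀ M : A.End, ∃ n : ℤ, M.1 = n • 1) ∧
      (∃ e : Fin g → A.LinV p, (∀ k, A.IsGaloisEnd p (e k)) ∧ LinearIndependent ℚ_[p] e) ∧
      ∃ φ, A.IsGaloisEnd p φ ∧ φ ∉ Submodule.span ℚ_[p] (Set.range (A.endV p)) := by
  obtain ⟨α, hα⟩ := exists_irrational p
  obtain ⟨A, hQ⟩ : ∃ A : PeriodMatrix K g,
      A.Q = per (toMult (primeK p K)) (kappa p K) (jac α) :=
    ⟨example' p K (jac α : Matrix (Fin g) (Fin g) ℤ_[p]) (jac_symm α), example_Q p K _ _⟩
  have hEnd := end_scalar p K hα A hQ ⟨0, by omega⟩ rfl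
  obtain ⟨e, he1, he2⟩ := exists_galoisEnd p K A α hQ ⟨0, by omega⟩ rfl
  refine ⟨A, hEnd, ⟨e, he1, he2⟩, ?_⟩
  by_contra hcon
  push Not at hcon
  -- the span of the endomorphisms consists of scalars
  have hspan : Submodule.span ℚ_[p] (Set.range (A.endV p)) ≤
      Submodule.span ℚ_[p] {(1 : A.LinV p)} := by
    rw [Submodule.span_le]
    rintro _ ⟨M, rfl⟩
    obtain ⟨n, hn⟩ := hEnd M
    have h1 : A.endV p M = (n : ℚ_[p]) • (1 : A.LinV p) := by
      refine map_scalar p (M := A.Points) (A.endPoints M) n ?_
      intro x
      obtain ⟨y, rfl⟩ := proj_surjective A.Q x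
      show proj A.Q (torusEnd (Mult K) M.1 y) = n • proj A.Q y
      rw [hn, ← map_zsmul]
      congr 1
      ext1 i
      rw [torusEnd_apply, Finset.sum_eq_single i, Pi.smul_apply, Matrix.smul_apply,
        Matrix.one_apply_eq, smul_eq_mul, mul_one]
      · intro j _ hj
        rw [Matrix.smul_apply, Matrix.one_apply_ne (Ne.symm hj), smul_zero, zero_smul]
      · intro h; exact absurd (Finset.mem_univ _) h
    rw [h1]
    exact Submodule.smul_mem _ _ (Submodule.mem_span_singleton_self _)
  obtain ⟨c0, hc0⟩ := Submodule.mem_span_singleton.1 (hspan (hcon _ (he1 ⟨0, by omega⟩)))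
  obtain ⟨c1, hc1⟩ := Submodule.mem_span_singleton.1 (hspan (hcon _ (he1 ⟨1, by omega⟩)))
  have hzo : (⟨0, by omega⟩ : Fin g) ≠ ⟨1, by omega⟩ := by
    intro h
    have h1 : (0 : ℕ) = 1 := congrArg Fin.val h
    omega
  exact not_both_multiples he2 hzo LinearMap.id c0 c1 hc0.symm hc1.symm

end Pool.Agent.Results.MP_b74fdd_ag.EveryFieldEveryDimension
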